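import Pool.Agent.Lib.MP_1bab7f_nt.DLemma

/-!
Exact certificate: interval endpoints are of the form `(a + b * sqrt 5) / 10`.
-/

set_option autoImplicit false

namespace Pool.Agent.MP1bab7f

/-- real value of a pair: `(a + b * sqrt 5) / 10` -/
noncomputable def val (p : ℤ × ℤ) : ℝ := ((p.1 : ℝ) + (p.2 : ℝ) * Real.sqrt 5) / 10

def nn (a b : ℤ) : Bool :=
  if 0 ≤ a then (if 0 ≤ b then true else decide (5 * b * b ≤ a * a))
  else (if 0 ≤ b then decide (a * a ≤ 5 * b * b) else false)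

theorem nn_sound {a b : ℤ} (h : nn a b = true) : 0 ≤ (a : ℝ) + (b : ℝ) * Real.sqrt 5 := by
  have s0 : 0 ≤ Real.sqrt 5 := Real.sqrt_nonneg 5
  have s1 := sqrt5_sq
  unfold nn at h
  split_ifs at h with h1 h2 h2
  · have a1 : (0 : ℝ) ≤ a := by exact_mod_cast h1
    have a2 : (0 : ℝ) ≤ b := by exact_mod_cast h2
    positivity
  · have a1 : (0 : ℝ) ≤ a := by exact_mod_cast h1
    have a2 : (b : ℝ) < 0 := by exact_mod_cast (not_le.mp h2)
    have a3 : 5 * b * b ≤ a * a := of_decide_eq_true h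
    have a4 : 5 * (b : ℝ) * b ≤ a * a := by exact_mod_cast a3
    have a5 : (-(b : ℝ) * Real.sqrt 5) ≤ a := by
      apply abs_le_of_sq_le_sq' _ a1 |>.2
      nlinarith
    linarith
  · have a1 : (a : ℝ) < 0 := by exact_mod_cast (not_le.mp h1)
    have a2 : (0 : ℝ) ≤ b := by exact_mod_cast h2
    have a3 : a * a ≤ 5 * b * b := of_decide_eq_true h
    have a4 : (a : ℝ) * a ≤ 5 * b * b := by exact_mod_cast a3
    have a6 : 0 ≤ (b : ℝ) * Real.sqrt 5 := mul_nonneg a2 s0
    have a5 : -(a : ℝ) ≤ (b : ℝ) * Real.sqrt 5 := by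
      apply abs_le_of_sq_le_sq' _ a6 |>.2
      nlinarith
    linarith

def lee (p q : ℤ × ℤ) : Bool := nn (q.1 - p.1) (q.2 - p.2)

theorem lee_sound {p q : ℤ × ℤ} (h : lee p q = true) : val p ≤ val q := by
  have := nn_sound h
  push_cast at this
  unfold val
  linarith

/-- position of `n` modulo one with integer part `p` -/
noncomputable def pos (n p : ℤ) : ℝ := (n : ℝ) * ((1 + Real.sqrt 5) / 2) - p

def sft (e : ℤ × ℤ) (f q : ℤ) : ℤ × ℤ := (e.1 + 5 * f - 10 * q, e.2 + 5 * f)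

theorem val_sft (e : ℤ × ℤ) (f q : ℤ) : val (sft e f q) = val e + pos f q := by
  unfold val sft pos
  push_cast
  ring

def dis (I J : (ℤ × ℤ) × (ℤ × ℤ)) : Bool := lee I.2 J.1 || lee J.2 I.1

def padd (p q : ℤ × ℤ) : ℤ × ℤ := (p.1 + q.1, p.2 + q.2)

theorem val_padd (p q : ℤ × ℤ) : val (padd p q) = val p + val q := by
  unfold val padd
  push_cast
  ring

def up (p : ℤ × ℤ) : ℤ × ℤ := (p.1 + 10, p.2)

theorem val_up (p : ℤ × ℤ) : val (up p) = val p + 1 := by
  unfold val up
  push_cast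
  ring

def Tl : List ((ℤ × ℤ) × (ℤ × ℤ)) :=
  [((10, -2), (-815, 367)), ((-1495, 669), (10, -4)), ((20, -8), (-3305, 1479)), ((-195, 89), (40, -16)), ((-2360, 1056), (-30, 14)), ((25, -11), (-2855, 1277))]

def Wl : List ((ℤ × ℤ) × (ℤ × ℤ)) :=
  [((10, -4), (-815, 365)), ((-1485, 665), (20, -8)), ((40, -16), (-3285, 1471)), ((-2320, 1040), (10, -2))]

def Fl : List (ℤ × ℤ) :=
  [(1, 1), (5, 8), (21, 33), (22, 35), (32, 51), (75, 121), (79, 127), (80, 129), (88, 142), (101, 163), (112, 181), (120, 194), (122, 197), (131, 211), (132, 213), (153, 247), (162, 262), (167, 270), (170, 275), (185, 299), (186, 300), (191, 309), (192, 310), (207, 334), (212, 343), (214, 346), (215, 347), (216, 349), (237, 383), (255, 412), (257, 415), (266, 430), (290, 469), (298, 482)]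

def Cl : List ((ℤ × ℤ) × ((ℤ × ℤ) × (ℤ × ℤ))) := [
  ((255, 413), ((-195, 89), (40, -16))),
  ((1, 2), ((-195, 89), (40, -16))),
  ((0, 0), ((25, -11), (-2855, 1277))),
  ((257, 416), ((20, -8), (-3305, 1479))),
  ((186, 301), ((-1495, 669), (10, -4))),
  ((131, 212), ((-1495, 669), (10, -4))),
  ((192, 311), ((-195, 89), (40, -16))),
  ((191, 309), ((25, -11), (-2855, 1277))),
  ((215, 348), ((20, -8), (-3305, 1479))),
  ((131, 212), ((-2360, 1056), (-30, 14))),
  ((0, 0), ((-1495, 669), (10, -4))),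
  ((0, 0), ((10, -4), (-815, 365))),
  ((212, 343), ((-1495, 669), (10, -4))),
  ((0, 0), ((-2360, 1056), (-30, 14))),
  ((5, 8), ((25, -11), (-2855, 1277))),
  ((132, 214), ((10, -2), (-815, 367))),
  ((191, 309), ((-1495, 669), (10, -4))),
  ((22, 36), ((10, -2), (-815, 367))),
  ((170, 275), ((-1495, 669), (10, -4))),
  ((1, 2), ((10, -2), (-815, 367))),
  ((32, 52), ((-195, 89), (40, -16))),
  ((0, 0), ((-1485, 665), (20, -8))),
  ((0, 0), ((20, -8), (-3305, 1479))),
  ((162, 262), ((-1495, 669), (10, -4))),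
  ((79, 128), ((-195, 89), (40, -16))),
  ((257, 416), ((-195, 89), (40, -16))),
  ((120, 194), ((-1495, 669), (10, -4))),
  ((298, 482), ((-1495, 669), (10, -4))),
  ((215, 348), ((-195, 89), (40, -16))),
  ((214, 346), ((25, -11), (-2855, 1277))),
  ((167, 270), ((-1495, 669), (10, -4))),
  ((112, 181), ((-1495, 669), (10, -4))),
  ((290, 469), ((-1495, 669), (10, -4))),
  ((207, 335), ((-195, 89), (40, -16))),
  ((186, 301), ((-195, 89), (40, -16))),
  ((131, 212), ((-195, 89), (40, -16))),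
  ((21, 34), ((-195, 89), (40, -16))),
  ((0, 0), ((-195, 89), (40, -16))),
  ((0, 0), ((40, -16), (-3285, 1471))),
  ((212, 343), ((-195, 89), (40, -16))),
  ((191, 309), ((-195, 89), (40, -16))),
  ((170, 275), ((-195, 89), (40, -16))),
  ((207, 335), ((10, -2), (-815, 367))),
  ((5, 8), ((-195, 89), (40, -16))),
  ((186, 301), ((10, -2), (-815, 367))),
  ((101, 163), ((-1495, 669), (10, -4))),
  ((162, 262), ((-195, 89), (40, -16))),
  ((80, 129), ((-1495, 669), (10, -4))),
  ((185, 299), ((20, -8), (-3305, 1479))),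
  ((101, 163), ((-2360, 1056), (-30, 14))),
  ((0, 0), ((-2320, 1040), (10, -2))),
  ((0, 0), ((10, -2), (-815, 367))),
  ((75, 121), ((20, -8), (-3305, 1479))),
  ((120, 194), ((-195, 89), (40, -16))),
  ((298, 482), ((-195, 89), (40, -16))),
  ((216, 349), ((-1495, 669), (10, -4))),
  ((191, 309), ((10, -2), (-815, 367))),
  ((266, 430), ((20, -8), (-3305, 1479))),
  ((122, 197), ((20, -8), (-3305, 1479))),
  ((167, 270), ((-195, 89), (40, -16))),
  ((290, 469), ((-195, 89), (40, -16))),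
  ((153, 247), ((-1495, 669), (10, -4))),
  ((214, 346), ((-195, 89), (40, -16))),
  ((132, 213), ((-1495, 669), (10, -4))),
  ((237, 383), ((20, -8), (-3305, 1479))),
  ((153, 247), ((-2360, 1056), (-30, 14))),
  ((22, 35), ((-1495, 669), (10, -4))),
  ((255, 412), ((-1495, 669), (10, -4))),
  ((192, 310), ((25, -11), (-2855, 1277))),
  ((216, 349), ((20, -8), (-3305, 1479))),
  ((132, 213), ((-2360, 1056), (-30, 14))),
  ((1, 1), ((-1495, 669), (10, -4))),
  ((120, 194), ((10, -2), (-815, 367))),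
  ((298, 482), ((10, -2), (-815, 367))),
  ((185, 299), ((-195, 89), (40, -16))),
  ((75, 121), ((-195, 89), (40, -16))),
  ((112, 181), ((10, -2), (-815, 367))),
  ((290, 469), ((10, -2), (-815, 367))),
  ((88, 142), ((-195, 89), (40, -16))),
  ((122, 197), ((-195, 89), (40, -16))),
  ((101, 163), ((-195, 89), (40, -16))),
  ((80, 129), ((-195, 89), (40, -16))),
  ((79, 127), ((25, -11), (-2855, 1277))),
  ((32, 51), ((-1495, 669), (10, -4))),
  ((237, 383), ((-195, 89), (40, -16))),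
  ((216, 349), ((-195, 89), (40, -16))),
  ((79, 127), ((-1495, 669), (10, -4))),
  ((257, 415), ((-1495, 669), (10, -4))),
  ((88, 142), ((10, -2), (-815, 367))),
  ((266, 430), ((10, -2), (-815, 367))),
  ((153, 247), ((-195, 89), (40, -16))),
  ((132, 213), ((-195, 89), (40, -16)))]

def chkT : Bool :=
  Tl.all fun I => lee (0, 0) I.1 && lee I.2 (6, 0) && decide (I.1.2 % 5 ≠ 0) &&
    decide (I.2.2 % 5 ≠ 0)

def dis2 (I K : (ℤ × ℤ) × (ℤ × ℤ)) : Bool := dis I K && dis I (up K.1, up K.2)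

def chkSum : Bool :=
  Tl.all fun I => Tl.all fun J => Tl.all fun K => dis2 (padd I.1 J.1, padd I.2 J.2) K

def chkF : Bool :=
  Fl.all fun g => lee (0, 0) (sft (0, 0) g.1 g.2) && lee (sft (0, 0) g.1 g.2) (10, 0) &&
    decide (1 ≤ g.1) && decide (g.1 ≤ 300) &&
    Tl.all fun I => Tl.all fun K => dis2 (sft I.1 g.1 g.2, sft I.2 g.1 g.2) K

def chain : ℤ × ℤ → List ((ℤ × ℤ) × ((ℤ × ℤ) × (ℤ × ℤ))) → Bool
  | cur, [] => lee (10, 0) cur
  | cur, it :: rest =>
    lee (sft it.2.1 it.1.1 it.1.2) cur && chain (sft it.2.2 it.1.1 it.1.2) rest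

def chkItems : Bool :=
  Cl.all fun it =>
    if it.1.1 = 0 then decide (it.1.2 = 0) && (decide (it.2 ∈ Tl) || decide (it.2 ∈ Wl))
    else decide (it.1.1 ∈ Fl.map Prod.fst) && decide (it.2 ∈ Tl)

theorem chkT_true : chkT = true := by decide +kernel
theorem chkSum_true : chkSum = true := by decide +kernel
theorem chkF_true : chkF = true := by decide +kernel
theorem chain_true : chain (0, 0) Cl = true := by decide +kernel
theorem chkItems_true : chkItems = true := by decide +kernel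

theorem chain_sound : ∀ (l : List ((ℤ × ℤ) × ((ℤ × ℤ) × (ℤ × ℤ)))) (cur : ℤ × ℤ) (x : ℝ),
    chain cur l = true → val cur ≤ x → x < 1 →
    ∃ it ∈ l, val (sft it.2.1 it.1.1 it.1.2) ≤ x ∧ x ≤ val (sft it.2.2 it.1.1 it.1.2) := by
  intro l
  induction l with
  | nil =>
    intro cur x h h1 h2
    exfalso
    have := lee_sound (p := (10, 0)) (q := cur) h
    have e : val (10, 0) = 1 := by unfold val; norm_num
    rw [e] at this
    linarith
  | cons it rest ih =>
    intro cur x h h1 h2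
    rw [chain, Bool.and_eq_true] at h
    rcases le_or_gt x (val (sft it.2.2 it.1.1 it.1.2)) with h3 | h3
    · exact ⟨it, List.mem_cons_self, le_trans (lee_sound h.1) h1, h3⟩
    · obtain ⟨it', hm, hh⟩ := ih _ x h.2 h3.le h2
      exact ⟨it', List.mem_cons_of_mem _ hm, hh⟩

end Pool.Agent.MP1bab7f
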