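import Mathlib

/-!
Decomposition lemma in the ring of integers of the golden field.

`E X Y = X + Y * phi` and `C X Y = X + Y * phibar` are the two real embeddings of `X + Y phi`.
The class of `X + Y phi` modulo `sqrt 5` is `(X + 3 Y) mod 5`.
-/

set_option autoImplicit false

namespace Pool.Agent.MP1bab7f

noncomputable def E (X Y : ℤ) : ℝ := (X : ℝ) + (Y : ℝ) * ((1 + Real.sqrt 5) / 2)

noncomputable def C (X Y : ℤ) : ℝ := (X : ℝ) + (Y : ℝ) * ((1 - Real.sqrt 5) / 2)

theorem sqrt5_sq : Real.sqrt 5 * Real.sqrt 5 = 5 :=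
  Real.mul_self_sqrt (by norm_num)

theorem sqrt5_lo : (2.236 : ℝ) < Real.sqrt 5 := by
  apply Real.lt_sqrt_of_sq_lt
  norm_num

theorem sqrt5_hi : Real.sqrt 5 < (2.2361 : ℝ) := by
  rw [Real.sqrt_lt' (by norm_num)]
  norm_num

/-- decomposition of `(X, Y)` into two totally positive elements of class `c` -/
def DD (c X Y : ℤ) : Prop :=
  ∃ X1 Y1 X2 Y2 : ℤ, X1 + X2 = X ∧ Y1 + Y2 = Y ∧ 0 < E X1 Y1 ∧ 0 < C X1 Y1 ∧
    0 < E X2 Y2 ∧ 0 < C X2 Y2 ∧ (X1 + 3 * Y1) % 5 = c ∧ (X2 + 3 * Y2) % 5 = c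

def RR (X Y : ℤ) : Prop :=
  ((X + 3 * Y) % 5 = 2 → DD 1 X Y) ∧ ((X + 3 * Y) % 5 = 3 → DD 4 X Y)

theorem E_up (X Y : ℤ) : E (X + Y) (X + 2 * Y) = ((3 + Real.sqrt 5) / 2) * E X Y := by
  unfold E
  push_cast
  linear_combination (-(Y : ℝ) / 4) * sqrt5_sq

theorem C_up (X Y : ℤ) : C (X + Y) (X + 2 * Y) = ((3 - Real.sqrt 5) / 2) * C X Y := by
  unfold C
  push_cast
  linear_combination (-(Y : ℝ) / 4) * sqrt5_sq

theorem E_down (X Y : ℤ) : E (2 * X - Y) (Y - X) = ((3 - Real.sqrt 5) / 2) * E X Y := by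
  unfold E
  push_cast
  linear_combination ((Y : ℝ) / 4) * sqrt5_sq

theorem C_down (X Y : ℤ) : C (2 * X - Y) (Y - X) = ((3 + Real.sqrt 5) / 2) * C X Y := by
  unfold C
  push_cast
  linear_combination ((Y : ℝ) / 4) * sqrt5_sq

theorem up_pos : 0 < (3 + Real.sqrt 5) / 2 := by
  have := sqrt5_lo
  linarith

theorem down_pos : 0 < (3 - Real.sqrt 5) / 2 := by
  have := sqrt5_hi
  linarith

theorem RR_of_down {X Y : ℤ} (h : RR (2 * X - Y) (Y - X)) : RR X Y := by
  constructor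
  · intro hc
    obtain ⟨X1, Y1, X2, Y2, hX, hY, e1, c1, e2, c2, m1, m2⟩ := h.2 (by omega)
    refine ⟨X1 + Y1, X1 + 2 * Y1, X2 + Y2, X2 + 2 * Y2, by omega, by omega, ?_, ?_, ?_, ?_,
      by omega, by omega⟩
    · rw [E_up]; exact mul_pos up_pos e1
    · rw [C_up]; exact mul_pos down_pos c1
    · rw [E_up]; exact mul_pos up_pos e2
    · rw [C_up]; exact mul_pos down_pos c2
  · intro hc
    obtain ⟨X1, Y1, X2, Y2, hX, hY, e1, c1, e2, c2, m1, m2⟩ := h.1 (by omega)
    refine ⟨X1 + Y1, X1 + 2 * Y1, X2 + Y2, X2 + 2 * Y2, by omega, by omega, ?_, ?_, ?_, ?_,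
      by omega, by omega⟩
    · rw [E_up]; exact mul_pos up_pos e1
    · rw [C_up]; exact mul_pos down_pos c1
    · rw [E_up]; exact mul_pos up_pos e2
    · rw [C_up]; exact mul_pos down_pos c2

theorem RR_of_up {X Y : ℤ} (h : RR (X + Y) (X + 2 * Y)) : RR X Y := by
  constructor
  · intro hc
    obtain ⟨X1, Y1, X2, Y2, hX, hY, e1, c1, e2, c2, m1, m2⟩ := h.2 (by omega)
    refine ⟨2 * X1 - Y1, Y1 - X1, 2 * X2 - Y2, Y2 - X2, by omega, by omega, ?_, ?_, ?_, ?_,
      by omega, by omega⟩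
    · rw [E_down]; exact mul_pos down_pos e1
    · rw [C_down]; exact mul_pos up_pos c1
    · rw [E_down]; exact mul_pos down_pos e2
    · rw [C_down]; exact mul_pos up_pos c2
  · intro hc
    obtain ⟨X1, Y1, X2, Y2, hX, hY, e1, c1, e2, c2, m1, m2⟩ := h.1 (by omega)
    refine ⟨2 * X1 - Y1, Y1 - X1, 2 * X2 - Y2, Y2 - X2, by omega, by omega, ?_, ?_, ?_, ?_,
      by omega, by omega⟩
    · rw [E_down]; exact mul_pos down_pos e1
    · rw [C_down]; exact mul_pos up_pos c1
    · rw [E_down]; exact mul_pos down_pos e2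
    · rw [C_down]; exact mul_pos up_pos c2

/-- positivity in the cone `0 ≤ Y ≤ X`, `0 < X` -/
theorem EC_pos {X Y : ℤ} (h0 : 0 ≤ Y) (h1 : Y ≤ X) (h2 : 0 < X) : 0 < E X Y ∧ 0 < C X Y := by
  have a0 : (0 : ℝ) ≤ Y := by exact_mod_cast h0
  have a1 : (Y : ℝ) ≤ X := by exact_mod_cast h1
  have a2 : (0 : ℝ) < X := by exact_mod_cast h2
  have l := sqrt5_lo
  have u := sqrt5_hi
  constructor
  · unfold E
    have : 0 ≤ (Y : ℝ) * ((1 + Real.sqrt 5) / 2) := mul_nonneg a0 (by linarith)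
    linarith
  · unfold C
    nlinarith

theorem RR_base {X Y : ℤ} (h0 : 0 ≤ Y) (h1 : Y < X) : RR X Y := by
  constructor
  · intro hc
    have p1 := EC_pos (X := 1) (Y := 0) (by norm_num) (by norm_num) (by norm_num)
    have hX1 : 0 < X - 1 := by
      rcases eq_or_lt_of_le h0 with hY | hY
      · rw [← hY] at hc h1
        omega
      · omega
    have p2 := EC_pos (X := X - 1) (Y := Y) h0 (by omega) hX1
    exact ⟨1, 0, X - 1, Y, by omega, by omega, p1.1, p1.2, p2.1, p2.2, by omega, by omega⟩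
  · intro hc
    have p1 := EC_pos (X := 1) (Y := 1) (by norm_num) (by norm_num) (by norm_num)
    by_cases hY : 1 ≤ Y
    · have p2 := EC_pos (X := X - 1) (Y := Y - 1) (by omega) (by omega) (by omega)
      exact ⟨1, 1, X - 1, Y - 1, by omega, by omega, p1.1, p1.2, p2.1, p2.2, by omega, by omega⟩
    · have hY0 : Y = 0 := by omega
      subst hY0
      have hX : 3 ≤ X := by omega
      have hXr : (3 : ℝ) ≤ X := by exact_mod_cast hX
      have l := sqrt5_lo
      have u := sqrt5_hi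
      refine ⟨1, 1, X - 1, -1, by omega, by omega, p1.1, p1.2, ?_, ?_, by omega, by omega⟩
      · unfold E; push_cast; linarith
      · unfold C; push_cast; linarith

theorem RR_all (n : ℕ) : ∀ X Y : ℤ, X ≤ n → 0 < E X Y → 0 < C X Y → RR X Y := by
  induction n with
  | zero =>
    intro X Y hX hE hC
    exfalso
    have hXr : (X : ℝ) ≤ 0 := by exact_mod_cast hX
    have l := sqrt5_lo
    have u := sqrt5_hi
    unfold E at hE
    unfold C at hC
    rcases le_or_gt 0 (Y : ℝ) with hY | hY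
    · nlinarith
    · nlinarith
  | succ n ih =>
    intro X Y hX hE hC
    have l := sqrt5_lo
    have u := sqrt5_hi
    rcases lt_or_ge Y 0 with hY | hY
    · apply RR_of_up
      apply ih
      · push_cast at hX; omega
      · rw [E_up]; exact mul_pos up_pos hE
      · rw [C_up]; exact mul_pos down_pos hC
    · rcases lt_trichotomy Y X with h | h | h
      · exact RR_base hY h
      · apply RR_of_down
        subst h
        have hpos : 0 < Y := by
          rcases lt_or_ge 0 Y with h | h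
          · exact h
          · exfalso
            have : Y = 0 := le_antisymm h hY
            subst this
            unfold E at hE
            simp at hE
        have := RR_base (X := Y) (Y := 0) le_rfl hpos
        have e1 : 2 * Y - Y = Y := by ring
        have e2 : Y - Y = 0 := by ring
        rw [e1, e2]
        exact this
      · apply RR_of_down
        apply ih
        · push_cast at hX; omega
        · rw [E_down]; exact mul_pos down_pos hE
        · rw [C_down]; exact mul_pos up_pos hC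

theorem dec_pos {X Y : ℤ} (hE : 0 < E X Y) (hC : 0 < C X Y) : RR X Y :=
  RR_all X.toNat X Y (Int.self_le_toNat X) hE hC

/-- decomposition in the mixed quadrant `E < 0 < C` -/
def MM (c X Y : ℤ) : Prop :=
  ∃ X1 Y1 X2 Y2 : ℤ, X1 + X2 = X ∧ Y1 + Y2 = Y ∧ E X1 Y1 < 0 ∧ 0 < C X1 Y1 ∧
    E X2 Y2 < 0 ∧ 0 < C X2 Y2 ∧ (X1 + 3 * Y1) % 5 = c ∧ (X2 + 3 * Y2) % 5 = c

theorem E_phi (X Y : ℤ) : E (-Y) (-X - Y) = -(((1 + Real.sqrt 5) / 2) * E X Y) := by
  unfold E
  push_cast
  linear_combination ((Y : ℝ) / 4) * sqrt5_sq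

theorem C_phi (X Y : ℤ) : C (-Y) (-X - Y) = (((Real.sqrt 5 - 1) / 2) * C X Y) := by
  unfold C
  push_cast
  linear_combination ((Y : ℝ) / 4) * sqrt5_sq

theorem E_back (U V : ℤ) : E (U - V) (-U) = -(((Real.sqrt 5 - 1) / 2) * E U V) := by
  unfold E
  push_cast
  linear_combination ((V : ℝ) / 4) * sqrt5_sq

theorem C_back (U V : ℤ) : C (U - V) (-U) = (((1 + Real.sqrt 5) / 2) * C U V) := by
  unfold C
  push_cast
  linear_combination ((V : ℝ) / 4) * sqrt5_sq

theorem a_pos : 0 < (1 + Real.sqrt 5) / 2 := by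
  have := sqrt5_lo
  linarith

theorem b_pos : 0 < (Real.sqrt 5 - 1) / 2 := by
  have := sqrt5_lo
  linarith

theorem MM_of_DD {X Y c d : ℤ} (h : DD c (-Y) (-X - Y)) (hcd : (3 * c) % 5 = d) :
    MM d X Y := by
  obtain ⟨X1, Y1, X2, Y2, hX, hY, e1, c1, e2, c2, m1, m2⟩ := h
  refine ⟨X1 - Y1, -X1, X2 - Y2, -X2, by omega, by omega, ?_, ?_, ?_, ?_, by omega, by omega⟩
  · rw [E_back]; exact neg_neg_of_pos (mul_pos b_pos e1)
  · rw [C_back]; exact mul_pos a_pos c1
  · rw [E_back]; exact neg_neg_of_pos (mul_pos b_pos e2)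
  · rw [C_back]; exact mul_pos a_pos c2

theorem dec_mixed {X Y : ℤ} (hE : E X Y < 0) (hC : 0 < C X Y) :
    ((X + 3 * Y) % 5 = 1 → MM 3 X Y) ∧ ((X + 3 * Y) % 5 = 4 → MM 2 X Y) := by
  have hE' : 0 < E (-Y) (-X - Y) := by
    rw [E_phi]
    have : ((1 + Real.sqrt 5) / 2) * E X Y < 0 := mul_neg_of_pos_of_neg a_pos hE
    linarith
  have hC' : 0 < C (-Y) (-X - Y) := by
    rw [C_phi]
    exact mul_pos b_pos hC
  have h := dec_pos hE' hC'
  constructor
  · intro hc
    exact MM_of_DD (h.1 (by omega)) (by norm_num)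
  · intro hc
    exact MM_of_DD (h.2 (by omega)) (by norm_num)

/-- the norm is a nonzero integer -/
theorem norm_ge {X Y : ℤ} (hE : E X Y ≠ 0) (hC : C X Y ≠ 0) : 1 ≤ |E X Y * C X Y| := by
  have h : E X Y * C X Y = ((X * X + X * Y - Y * Y : ℤ) : ℝ) := by
    unfold E C
    push_cast
    linear_combination (-(Y : ℝ) * Y / 4) * sqrt5_sq
  rw [h, ← Int.cast_abs]
  have hne : (X * X + X * Y - Y * Y : ℤ) ≠ 0 := by
    intro h0
    rw [h0] at h
    simp at h
    rcases h with h | h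
    · exact hE h
    · exact hC h
  have := Int.one_le_abs hne
  exact_mod_cast this

end Pool.Agent.MP1bab7f
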