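import Mathlib

set_option autoImplicit false

namespace Pool.Agent.Dickson

/-- `{0} ∪ ⋃ [4·8^k, 8^(k+1))` -/
def X1 (x : ℕ) : Prop := x = 0 ∨ ∃ k : ℕ, 4 * 8 ^ k ≤ x ∧ x < 8 ^ (k + 1)
/-- `⋃ [2·8^k - 1, 4·8^k - 1]` -/
def X2 (x : ℕ) : Prop := ∃ k : ℕ, 2 * 8 ^ k ≤ x + 1 ∧ x + 1 ≤ 4 * 8 ^ k
/-- `⋃ [8^k - 1, 2·8^k - 1]` -/
def X4 (x : ℕ) : Prop := ∃ k : ℕ, 8 ^ k ≤ x + 1 ∧ x + 1 ≤ 2 * 8 ^ k

lemma pow_lt_iff {i j : ℕ} (h : 8 ^ i < 8 ^ j) : i < j := by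
  by_contra hc
  push Not at hc
  exact absurd (Nat.pow_le_pow_right (by norm_num : 0 < 8) hc) (not_le.mpr h)

lemma pow_le_of {i j : ℕ} (h : i < j) : 8 * 8 ^ i ≤ 8 ^ j := by
  have := Nat.pow_le_pow_right (by norm_num : 0 < 8) (Nat.succ_le_of_lt h)
  rw [pow_succ] at this
  linarith

lemma trich (i j : ℕ) : i = j ∨ 8 * 8 ^ i ≤ 8 ^ j ∨ 8 * 8 ^ j ≤ 8 ^ i := by
  rcases lt_trichotomy i j with h | h | h
  · exact Or.inr (Or.inl (pow_le_of h))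
  · exact Or.inl h
  · exact Or.inr (Or.inr (pow_le_of h))

lemma one_le_pow8 (k : ℕ) : 1 ≤ 8 ^ k := Nat.one_le_pow _ _ (by norm_num)

lemma L1 {x y : ℕ} (hx : X1 x) (hy : X1 y) : ¬ X2 (x + y) := by
  rintro ⟨j, hj1, hj2⟩
  have pj := one_le_pow8 j
  rcases hx with rfl | ⟨k, hk1, hk2⟩
  · rcases hy with rfl | ⟨l, hl1, hl2⟩
    · omega
    · rw [pow_succ] at hl2
      have pl := one_le_pow8 l
      rcases trich j l with rfl | h | h <;> omega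
  · rw [pow_succ] at hk2
    have pk := one_le_pow8 k
    rcases hy with rfl | ⟨l, hl1, hl2⟩
    · rcases trich j k with rfl | h | h <;> omega
    · rw [pow_succ] at hl2
      have pl := one_le_pow8 l
      rcases trich j k with rfl | h | h <;> rcases trich j l with rfl | h' | h' <;> omega

lemma L2 {x y : ℕ} (hx : X2 x) (hy : X2 y) : ¬ X4 (x + y) := by
  rintro ⟨j, hj1, hj2⟩
  obtain ⟨k, hk1, hk2⟩ := hx
  obtain ⟨l, hl1, hl2⟩ := hy
  have pj := one_le_pow8 j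
  have pk := one_le_pow8 k
  have pl := one_le_pow8 l
  rcases trich j k with rfl | h | h <;> rcases trich j l with rfl | h' | h' <;> omega

lemma L4 {x y : ℕ} (hx : X4 x) (hy : X4 y) : ¬ X1 (x + y + 1) := by
  rintro (h0 | ⟨j, hj1, hj2⟩)
  · omega
  rw [pow_succ] at hj2
  obtain ⟨k, hk1, hk2⟩ := hx
  obtain ⟨l, hl1, hl2⟩ := hy
  have pj := one_le_pow8 j
  have pk := one_le_pow8 k
  have pl := one_le_pow8 l
  rcases trich j k with rfl | h | h <;> rcases trich j l with rfl | h' | h' <;> omega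

lemma exists_scale (y : ℕ) (hy : 1 ≤ y) : ∃ k : ℕ, 8 ^ k ≤ y ∧ y < 8 * 8 ^ k := by
  refine ⟨Nat.log 8 y, Nat.pow_log_le_self 8 (by omega), ?_⟩
  have := Nat.lt_pow_succ_log_self (by norm_num : 1 < 8) y
  rw [pow_succ] at this
  linarith

lemma C2 {x : ℕ} (hx : ¬ X2 x) : ∃ y z, X1 y ∧ X1 z ∧ y + z = x := by
  obtain ⟨k, hk1, hk2⟩ := exists_scale (x + 1) (by omega)
  have pk := one_le_pow8 k
  have hx' : x + 1 < 2 * 8 ^ k ∨ 4 * 8 ^ k < x + 1 := by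
    by_contra hc
    push Not at hc
    exact hx ⟨k, hc.1, hc.2⟩
  rcases hx' with h | h
  · rcases k with _ | k
    · have : x = 0 := by simpa using h
      subst this
      exact ⟨0, 0, Or.inl rfl, Or.inl rfl, rfl⟩
    · have pk' := one_le_pow8 k
      rw [pow_succ] at hk1 h
      by_cases he : x + 1 = 8 ^ k * 8
      · exact ⟨x, 0, Or.inr ⟨k, by omega, by rw [pow_succ]; omega⟩, Or.inl rfl, by omega⟩
      · refine ⟨x / 2, x - x / 2, Or.inr ⟨k, by omega, by rw [pow_succ]; omega⟩,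
          Or.inr ⟨k, by omega, by rw [pow_succ]; omega⟩, by omega⟩
  · exact ⟨x, 0, Or.inr ⟨k, by omega, by rw [pow_succ]; omega⟩, Or.inl rfl, by omega⟩

lemma C4 {x : ℕ} (hx : ¬ X4 x) : ∃ y z, X2 y ∧ X2 z ∧ y + z = x := by
  obtain ⟨k, hk1, hk2⟩ := exists_scale (x + 1) (by omega)
  have pk := one_le_pow8 k
  have h : 2 * 8 ^ k < x + 1 := by
    by_contra hc
    push Not at hc
    exact hx ⟨k, hk1, hc⟩
  by_cases h4 : x ≤ 4 * 8 ^ k
  · exact ⟨x - 1, 1, ⟨k, by omega, by omega⟩, ⟨0, by norm_num, by norm_num⟩, by omega⟩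
  · exact ⟨x / 2, x - x / 2, ⟨k, by omega, by omega⟩, ⟨k, by omega, by omega⟩, by omega⟩

lemma C1 {x : ℕ} (hx : ¬ X1 x) : ∃ y z, X4 y ∧ X4 z ∧ y + z + 1 = x := by
  have hx0 : x ≠ 0 := fun h => hx (Or.inl h)
  obtain ⟨k, hk1, hk2⟩ := exists_scale x (by omega)
  have pk := one_le_pow8 k
  have h : x < 4 * 8 ^ k := by
    by_contra hc
    push Not at hc
    exact hx (Or.inr ⟨k, hc, by rw [pow_succ]; omega⟩)
  by_cases h4 : x ≤ 2 * 8 ^ k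
  · exact ⟨x - 1, 0, ⟨k, by omega, by omega⟩, ⟨0, by norm_num, by norm_num⟩, by omega⟩
  · exact ⟨(x - 1) / 2, x - 1 - (x - 1) / 2, ⟨k, by omega, by omega⟩, ⟨k, by omega, by omega⟩, by omega⟩

end Pool.Agent.Dickson
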