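import Mathlib
import Pool.Agent.Lib.MP_1bab7f_nt.Leiss

set_option autoImplicit false

namespace Pool.Agent.Dickson

/-- the residues modulo 364 which are completely contained in the set -/
def V : List ℕ := [2, 15, 18, 25, 61, 91, 97, 103, 123, 135, 139, 142, 145, 146, 151, 159, 162,
  178, 185, 186, 192, 199, 202, 205, 209, 213, 218, 219, 222, 225, 229, 241, 264, 267, 272, 273,
  335, 339, 346, 349, 362]

/-- all residues of elements of the set -/
def T : List ℕ := 52 :: 104 :: 208 :: V

/-- small elements of the set, used for the covering -/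
def Sm : List ℕ := 52 :: 468 :: 208 :: V

/-- the set -/
def P (n : ℕ) : Prop :=
  n % 364 ∈ V ∨ (n % 364 = 52 ∧ X1 (n / 364)) ∨ (n % 364 = 104 ∧ X2 (n / 364)) ∨
    (n % 364 = 208 ∧ X4 (n / 364))

lemma P_mem_T {n : ℕ} (h : P n) : n % 364 ∈ T := by
  rcases h with h | h | h | h
  · simp only [T, List.mem_cons]; tauto
  · rw [h.1]; decide
  · rw [h.1]; decide
  · rw [h.1]; decide

lemma P_of_V {n : ℕ} (h : n % 364 ∈ V) : P n := Or.inl h

lemma VT : ∀ v ∈ V, ∀ t ∈ T, (v + t) % 364 ∉ T := by decide +kernel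

lemma cover_dec : ∀ c < 364, c ∉ T → ∃ s ∈ Sm, (c + 728 - s) % 364 ∈ V := by decide +kernel

lemma Sm_lt : ∀ s ∈ Sm, s < 500 := by decide

lemma V_lt : ∀ v ∈ V, v % 364 ∈ V := by decide

lemma P_Sm : ∀ s ∈ Sm, P s := by
  intro s hs
  simp only [Sm, List.mem_cons] at hs
  rcases hs with rfl | rfl | rfl | hs
  · exact Or.inr (Or.inl ⟨by norm_num, Or.inl (by norm_num)⟩)
  · exact Or.inr (Or.inr (Or.inl ⟨by norm_num, ⟨0, by norm_num, by norm_num⟩⟩))
  · exact Or.inr (Or.inr (Or.inr ⟨by norm_num, ⟨0, by norm_num, by norm_num⟩⟩))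
  · exact Or.inl (V_lt s hs)

lemma not_P_zero : ¬ P 0 := by
  intro h
  have := P_mem_T h
  revert this
  decide

theorem sum_free {s t : ℕ} (hs : P s) (ht : P t) : ¬ P (s + t) := by
  intro h
  have hsT := P_mem_T hs
  have htT := P_mem_T ht
  have hT := P_mem_T h
  by_cases h1 : s % 364 ∈ V
  · have := VT _ h1 _ htT
    rw [← Nat.add_mod] at this
    exact this hT
  by_cases h2 : t % 364 ∈ V
  · have := VT _ h2 _ hsT
    rw [← Nat.add_mod, add_comm] at this
    exact this hT
  have e1 := Nat.div_add_mod s 364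
  have e2 := Nat.div_add_mod t 364
  have c1 : (s % 364 = 52 ∧ X1 (s / 364)) ∨ (s % 364 = 104 ∧ X2 (s / 364)) ∨
    (s % 364 = 208 ∧ X4 (s / 364)) := by rcases hs with h | h; exact absurd h h1; exact h
  have c2 : (t % 364 = 52 ∧ X1 (t / 364)) ∨ (t % 364 = 104 ∧ X2 (t / 364)) ∨
    (t % 364 = 208 ∧ X4 (t / 364)) := by rcases ht with h | h; exact absurd h h2; exact h
  rcases c1 with ⟨r1, x1⟩ | ⟨r1, x1⟩ | ⟨r1, x1⟩ <;> rcases c2 with ⟨r2, x2⟩ | ⟨r2, x2⟩ | ⟨r2, x2⟩
  · -- 52 + 52 = 104
    have hm : (s + t) % 364 = 104 := by omega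
    have hd : (s + t) / 364 = s / 364 + t / 364 := by omega
    have hX : X2 ((s + t) / 364) := by
      rcases h with h | h | h | h
      · rw [hm] at h; exact absurd h (by decide)
      · omega
      · exact h.2
      · omega
    rw [hd] at hX
    exact L1 x1 x2 hX
  · have hm : (s + t) % 364 = 156 := by omega
    rw [hm] at hT; exact absurd hT (by decide)
  · have hm : (s + t) % 364 = 260 := by omega
    rw [hm] at hT; exact absurd hT (by decide)
  · have hm : (s + t) % 364 = 156 := by omega
    rw [hm] at hT; exact absurd hT (by decide)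
  · -- 104 + 104 = 208
    have hm : (s + t) % 364 = 208 := by omega
    have hd : (s + t) / 364 = s / 364 + t / 364 := by omega
    have hX : X4 ((s + t) / 364) := by
      rcases h with h | h | h | h
      · rw [hm] at h; exact absurd h (by decide)
      · omega
      · omega
      · exact h.2
    rw [hd] at hX
    exact L2 x1 x2 hX
  · have hm : (s + t) % 364 = 312 := by omega
    rw [hm] at hT; exact absurd hT (by decide)
  · have hm : (s + t) % 364 = 260 := by omega
    rw [hm] at hT; exact absurd hT (by decide)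
  · have hm : (s + t) % 364 = 312 := by omega
    rw [hm] at hT; exact absurd hT (by decide)
  · -- 208 + 208 = 52 with carry
    have hm : (s + t) % 364 = 52 := by omega
    have hd : (s + t) / 364 = s / 364 + t / 364 + 1 := by omega
    have hX : X1 ((s + t) / 364) := by
      rcases h with h | h | h | h
      · rw [hm] at h; exact absurd h (by decide)
      · exact h.2
      · omega
      · omega
    rw [hd] at hX
    exact L4 x1 x2 hX

theorem cover {n : ℕ} (hn : 500 ≤ n) (h : ¬ P n) : ∃ s t, P s ∧ P t ∧ s + t = n := by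
  by_cases hT : n % 364 ∈ T
  · simp only [T, List.mem_cons] at hT
    have e := Nat.div_add_mod n 364
    rcases hT with hT | hT | hT | hT
    · have hx : ¬ X1 (n / 364) := fun hx => h (Or.inr (Or.inl ⟨hT, hx⟩))
      obtain ⟨y, z, hy, hz, hyz⟩ := C1 hx
      refine ⟨364 * y + 208, 364 * z + 208, Or.inr (Or.inr (Or.inr ⟨by omega, ?_⟩)),
        Or.inr (Or.inr (Or.inr ⟨by omega, ?_⟩)), by omega⟩
      · rwa [show (364 * y + 208) / 364 = y by omega]
      · rwa [show (364 * z + 208) / 364 = z by omega]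
    · have hx : ¬ X2 (n / 364) := fun hx => h (Or.inr (Or.inr (Or.inl ⟨hT, hx⟩)))
      obtain ⟨y, z, hy, hz, hyz⟩ := C2 hx
      refine ⟨364 * y + 52, 364 * z + 52, Or.inr (Or.inl ⟨by omega, ?_⟩),
        Or.inr (Or.inl ⟨by omega, ?_⟩), by omega⟩
      · rwa [show (364 * y + 52) / 364 = y by omega]
      · rwa [show (364 * z + 52) / 364 = z by omega]
    · have hx : ¬ X4 (n / 364) := fun hx => h (Or.inr (Or.inr (Or.inr ⟨hT, hx⟩)))
      obtain ⟨y, z, hy, hz, hyz⟩ := C4 hx
      refine ⟨364 * y + 104, 364 * z + 104, Or.inr (Or.inr (Or.inl ⟨by omega, ?_⟩)),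
        Or.inr (Or.inr (Or.inl ⟨by omega, ?_⟩)), by omega⟩
      · rwa [show (364 * y + 104) / 364 = y by omega]
      · rwa [show (364 * z + 104) / 364 = z by omega]
    · exact absurd (P_of_V hT) h
  · obtain ⟨s, hs, hv⟩ := cover_dec (n % 364) (Nat.mod_lt _ (by norm_num)) hT
    have hs2 := Sm_lt s hs
    refine ⟨s, n - s, P_Sm s hs, P_of_V ?_, by omega⟩
    have : (n - s) % 364 = (n % 364 + 728 - s) % 364 := by omega
    rw [this]
    exact hv

theorem infinite_P : Set.Infinite {n | P n} := by
  refine Set.infinite_of_injective_forall_mem (f := fun i : ℕ => 364 * i + 2) ?_ ?_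
  · intro a b hab
    simp only at hab
    omega
  · intro i
    exact P_of_V (by rw [show (364 * i + 2) % 364 = 2 by omega]; decide)

/-- no positive number is an eventual period -/
theorem not_period (D M : ℕ) (hD : 0 < D) (h : ∀ s, M ≤ s → P s → P (s + D)) : False := by
  have hj : ∀ j s, M ≤ s → P s → P (s + j * D) := by
    intro j
    induction j with
    | zero => intro s _ hs; simpa using hs
    | succ j ih =>
      intro s hs hP
      have := h (s + j * D) (by omega) (ih s hs hP)
      rwa [add_assoc, ← Nat.succ_mul] at this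
  -- choose a scale
  obtain ⟨k, hk⟩ : ∃ k : ℕ, M + D ≤ 8 ^ k := by
    obtain ⟨k, hk⟩ := pow_unbounded_of_one_lt (M + D) (by norm_num : 1 < 8)
    exact ⟨k, hk.le⟩
  have pk := one_le_pow8 k
  set K := 8 ^ k with hK
  have hs : P (364 * (4 * K) + 52) := by
    refine Or.inr (Or.inl ⟨by omega, Or.inr ⟨k, ?_, ?_⟩⟩)
    · omega
    · rw [pow_succ, ← hK]; omega
  -- number of steps
  set j := 4 * K / D + 1 with hjdef
  have hjD : j * D = 4 * K / D * D + D := by rw [hjdef, Nat.add_mul, one_mul]
  have h1 : 4 * K < j * D := by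
    rw [hjD]
    exact Nat.lt_div_mul_add (a := 4 * K) hD
  have h2 : j * D ≤ 4 * K + D := by
    rw [hjD]
    have := Nat.div_mul_le_self (4 * K) D
    omega
  have h3 := hj (364 * j) _ (by omega) hs
  have h4 : 364 * (4 * K) + 52 + 364 * j * D = 364 * (4 * K + j * D) + 52 := by ring
  rw [h4] at h3
  have h5 : X1 (4 * K + j * D) := by
    have hd : (364 * (4 * K + j * D) + 52) / 364 = 4 * K + j * D := by omega
    have hm : (364 * (4 * K + j * D) + 52) % 364 = 52 := by omega
    rcases h3 with h | h | h | h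
    · rw [hm] at h; exact absurd h (by decide)
    · rw [hd] at h; exact h.2
    · omega
    · omega
  rcases h5 with h5 | ⟨i, hi1, hi2⟩
  · omega
  · rw [pow_succ] at hi2
    rcases trich i k with rfl | h | h <;> omega

end Pool.Agent.Dickson
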