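import Mathlib
import Pool.Agent.Lib.MP_1bab7f_nt.Set

set_option autoImplicit false

namespace Pool.Agent.Dickson

open Classical in
/-- the increasing enumeration of the set -/
noncomputable def seq (i : ℕ) : ℤ := (Nat.nth P i : ℤ)

lemma seq_strictMono : StrictMono seq := by
  intro i j h
  have := Nat.nth_strictMono infinite_P h
  unfold seq
  exact_mod_cast this

lemma P_nth (i : ℕ) : P (Nat.nth P i) := Nat.nth_mem_of_infinite infinite_P i

open Classical in
lemma exists_index {s : ℕ} (hs : P s) : ∃ i, Nat.nth P i = s := ⟨Nat.count P s, Nat.nth_count hs⟩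

lemma nth_lt_iff {i j : ℕ} : Nat.nth P i < Nat.nth P j ↔ i < j :=
  (Nat.nth_strictMono infinite_P).lt_iff_lt

lemma nth_le_iff {i j : ℕ} : Nat.nth P i ≤ Nat.nth P j ↔ i ≤ j :=
  (Nat.nth_strictMono infinite_P).le_iff_le

lemma greedy (n : ℕ) (hn : 501 ≤ n + 1) :
    seq n < seq (n + 1) ∧
      (∀ i j : ℕ, i ≤ n → j ≤ n → seq i + seq j ≠ seq (n + 1)) ∧
      (∀ x : ℤ, seq n < x → x < seq (n + 1) → ∃ i j : ℕ, i ≤ n ∧ j ≤ n ∧ seq i + seq j = x) := by
  have h500 : 500 ≤ Nat.nth P n :=
    le_trans (by omega) ((Nat.nth_strictMono infinite_P).le_apply)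
  refine ⟨seq_strictMono (Nat.lt_succ_self n), ?_, ?_⟩
  · intro i j _ _ h
    unfold seq at h
    have h' : Nat.nth P i + Nat.nth P j = Nat.nth P (n + 1) := by exact_mod_cast h
    have := sum_free (P_nth i) (P_nth j)
    rw [h'] at this
    exact this (P_nth _)
  · intro x h1 h2
    have h0 : 0 ≤ x := le_trans (by unfold seq; positivity) h1.le
    obtain ⟨y, rfl⟩ := Int.eq_ofNat_of_zero_le h0
    unfold seq at h1 h2
    have h1' : Nat.nth P n < y := by exact_mod_cast h1
    have h2' : y < Nat.nth P (n + 1) := by exact_mod_cast h2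
    have hy : ¬ P y := by
      intro hy
      obtain ⟨i, hi⟩ := exists_index hy
      rw [← hi] at h1' h2'
      have a1 := nth_lt_iff.mp h1'
      have a2 := nth_lt_iff.mp h2'
      omega
    obtain ⟨s, t, hs, ht, hst⟩ := cover (by omega) hy
    obtain ⟨i, hi⟩ := exists_index hs
    obtain ⟨j, hj⟩ := exists_index ht
    refine ⟨i, j, ?_, ?_, ?_⟩
    · have : Nat.nth P i < Nat.nth P (n + 1) := by omega
      have := nth_lt_iff.mp this
      omega
    · have : Nat.nth P j < Nat.nth P (n + 1) := by omega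
      have := nth_lt_iff.mp this
      omega
    · unfold seq
      rw [hi, hj]
      exact_mod_cast hst

lemma not_eventually_periodic : ¬ ∃ p : ℕ, 0 < p ∧ ∃ N : ℕ, ∀ m : ℕ, N ≤ m →
    seq (m + p + 1) - seq (m + p) = seq (m + 1) - seq m := by
  rintro ⟨p, hp, N, hN⟩
  have hlt : Nat.nth P N < Nat.nth P (N + p) := nth_lt_iff.mpr (by omega)
  obtain ⟨D, hD⟩ : ∃ D, Nat.nth P (N + p) = Nat.nth P N + D := ⟨_, (Nat.add_sub_of_le hlt.le).symm⟩
  have hD0 : 0 < D := by omega
  have key : ∀ i, Nat.nth P (N + i + p) = Nat.nth P (N + i) + D := by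
    intro i
    induction i with
    | zero => simpa using hD
    | succ i ih =>
      have h := hN (N + i) (by omega)
      unfold seq at h
      have e1 : N + i + p + 1 = N + (i + 1) + p := by ring
      have e2 : N + i + 1 = N + (i + 1) := by ring
      rw [e1, e2] at h
      have hc : ((Nat.nth P (N + i + p) : ℕ) : ℤ) = (Nat.nth P (N + i) : ℕ) + (D : ℤ) := by
        exact_mod_cast ih
      have : ((Nat.nth P (N + (i + 1) + p) : ℕ) : ℤ) = (Nat.nth P (N + (i + 1)) : ℕ) + (D : ℤ) := by
        linarith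
      exact_mod_cast this
  refine not_period D (Nat.nth P N) hD0 ?_
  intro s hs hP
  obtain ⟨j, hj⟩ := exists_index hP
  rw [← hj] at hs
  have hj2 := nth_le_iff.mp hs
  obtain ⟨i, rfl⟩ := Nat.exists_eq_add_of_le hj2
  rw [← hj, ← key i]
  exact P_nth _

end Pool.Agent.Dickson
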