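import Pool.Agent.Lib.MP_1bab7f_nt.Cert

/-!
The set `SS` of integers `n > 0` whose position `n * phi mod 1` lies in the open set given by `Tl`,
together with the finite set `Fl`, satisfies: every `n > 600` is in `SS` iff it is not a sum of
two elements of `SS`.
-/

set_option autoImplicit false

namespace Pool.Agent.MP1bab7f

def InT (n : ℤ) : Prop := ∃ p : ℤ, ∃ I ∈ Tl, val I.1 < pos n p ∧ pos n p < val I.2

def InF (n : ℤ) : Prop := n ∈ Fl.map Prod.fst

def SS (n : ℤ) : Prop := 0 < n ∧ (InT n ∨ InF n)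

theorem irr5 : Irrational (Real.sqrt 5) := by
  have := Nat.prime_five.irrational_sqrt
  simpa using this

theorem val_ne_pos {e : ℤ × ℤ} (he : e.2 % 5 ≠ 0) (n p : ℤ) : val e ≠ pos n p := by
  intro h
  unfold val pos at h
  have h1 : ((e.2 - 5 * n : ℤ) : ℝ) * Real.sqrt 5 = ((5 * n - 10 * p - e.1 : ℤ) : ℝ) := by
    push_cast
    linarith
  have hne : (e.2 - 5 * n : ℤ) ≠ 0 := by omega
  have := irr5.intCast_mul hne
  rw [h1] at this
  exact (this.ne_int _) rfl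

theorem T_facts {I : (ℤ × ℤ) × (ℤ × ℤ)} (h : I ∈ Tl) :
    0 ≤ val I.1 ∧ val I.2 ≤ 0.6 ∧ I.1.2 % 5 ≠ 0 ∧ I.2.2 % 5 ≠ 0 := by
  have h0 := chkT_true
  unfold chkT at h0
  rw [List.all_eq_true] at h0
  have h1 := h0 I h
  simp only [Bool.and_eq_true, decide_eq_true_eq] at h1
  obtain ⟨⟨⟨h2, h3⟩, h4⟩, h5⟩ := h1
  refine ⟨?_, ?_, h4, h5⟩
  · have := lee_sound h2
    have e : val (0, 0) = 0 := by unfold val; norm_num
    rw [e] at this
    exact this
  · have := lee_sound h3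
    have e : val (6, 0) = 0.6 := by unfold val; norm_num
    rw [e] at this
    exact this

theorem dis_sound {I J : (ℤ × ℤ) × (ℤ × ℤ)} (h : dis I J = true) {x : ℝ}
    (h1 : val I.1 < x) (h2 : x < val I.2) (h3 : val J.1 < x) (h4 : x < val J.2) : False := by
  unfold dis at h
  rw [Bool.or_eq_true] at h
  rcases h with h | h
  · have := lee_sound h
    linarith
  · have := lee_sound h
    linarith

theorem dis2_sound {I K : (ℤ × ℤ) × (ℤ × ℤ)} (h : dis2 I K = true) {x z : ℝ} {d : ℤ}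
    (hd : x - z = d) (h1 : val I.1 < x) (h2 : x < val I.2) (h3 : val K.1 < z) (h4 : z < val K.2)
    (h5 : 0 ≤ x) (h6 : x < 2) (h7 : 0 ≤ z) (h8 : z < 1) : False := by
  have hd1 : (-1 : ℝ) < d := by linarith
  have hd2 : (d : ℝ) < 2 := by linarith
  have hd1' : (-1 : ℤ) < d := by exact_mod_cast hd1
  have hd2' : d < (2 : ℤ) := by exact_mod_cast hd2
  unfold dis2 at h
  rw [Bool.and_eq_true] at h
  have hdd : d = 0 ∨ d = 1 := by omega
  rcases hdd with rfl | rfl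
  · have hxz : x = z := by push_cast at hd; linarith
    rw [← hxz] at h3 h4
    exact dis_sound h.1 h1 h2 h3 h4
  · have hxz : x = z + 1 := by push_cast at hd; linarith
    have h3' : val (up K.1) < x := by rw [val_up]; linarith
    have h4' : x < val (up K.2) := by rw [val_up]; linarith
    exact dis_sound h.2 h1 h2 h3' h4'

theorem pos_add (m n p q : ℤ) : pos (m + n) (p + q) = pos m p + pos n q := by
  unfold pos
  push_cast
  ring

theorem not_sum_T {m n : ℤ} (hm : InT m) (hn : InT n) : ¬ InT (m + n) := by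
  rintro ⟨r, K, hK, hK1, hK2⟩
  obtain ⟨p, I, hI, hI1, hI2⟩ := hm
  obtain ⟨q, J, hJ, hJ1, hJ2⟩ := hn
  have h0 := chkSum_true
  unfold chkSum at h0
  rw [List.all_eq_true] at h0
  have h1 := h0 I hI
  rw [List.all_eq_true] at h1
  have h2 := h1 J hJ
  rw [List.all_eq_true] at h2
  have h3 := h2 K hK
  obtain ⟨fI1, fI2, -, -⟩ := T_facts hI
  obtain ⟨fJ1, fJ2, -, -⟩ := T_facts hJ
  obtain ⟨fK1, fK2, -, -⟩ := T_facts hK
  have hd : pos m p + pos n q - pos (m + n) r = ((r - p - q : ℤ) : ℝ) := by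
    unfold pos
    push_cast
    ring
  refine dis2_sound h3 hd ?_ ?_ hK1 hK2 ?_ ?_ ?_ ?_
  · rw [val_padd]; linarith
  · rw [val_padd]; linarith
  · linarith
  · linarith
  · linarith
  · linarith

theorem F_facts {g : ℤ × ℤ} (h : g ∈ Fl) :
    0 ≤ pos g.1 g.2 ∧ pos g.1 g.2 ≤ 1 ∧ 1 ≤ g.1 ∧ g.1 ≤ 300 ∧
      ∀ I ∈ Tl, ∀ K ∈ Tl, dis2 (sft I.1 g.1 g.2, sft I.2 g.1 g.2) K = true := by
  have h0 := chkF_true
  unfold chkF at h0
  rw [List.all_eq_true] at h0
  have h1 := h0 g h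
  simp only [Bool.and_eq_true, decide_eq_true_eq] at h1
  obtain ⟨⟨⟨⟨h2, h3⟩, h4⟩, h5⟩, h6⟩ := h1
  have e0 : val (0, 0) = 0 := by unfold val; norm_num
  have e1 : val (10, 0) = 1 := by unfold val; norm_num
  refine ⟨?_, ?_, h4, h5, ?_⟩
  · have := lee_sound h2
    rw [e0, val_sft, e0] at this
    linarith
  · have := lee_sound h3
    rw [e1, val_sft, e0] at this
    linarith
  · intro I hI K hK
    rw [List.all_eq_true] at h6
    have h7 := h6 I hI
    rw [List.all_eq_true] at h7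
    exact h7 K hK

theorem not_shift_T {n f : ℤ} (hf : InF f) (hn : InT n) : ¬ InT (f + n) := by
  rintro ⟨r, K, hK, hK1, hK2⟩
  obtain ⟨p, I, hI, hI1, hI2⟩ := hn
  unfold InF at hf
  rw [List.mem_map] at hf
  obtain ⟨g, hg, rfl⟩ := hf
  obtain ⟨g0, g1, -, -, g4⟩ := F_facts hg
  have h3 := g4 I hI K hK
  obtain ⟨fI1, fI2, -, -⟩ := T_facts hI
  obtain ⟨fK1, fK2, -, -⟩ := T_facts hK
  have hd : pos n p + pos g.1 g.2 - pos (g.1 + n) r = ((r - p - g.2 : ℤ) : ℝ) := by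
    unfold pos
    push_cast
    ring
  refine dis2_sound h3 hd ?_ ?_ hK1 hK2 ?_ ?_ ?_ ?_
  · rw [val_sft]; linarith
  · rw [val_sft]; linarith
  · linarith
  · linarith
  · linarith
  · linarith

theorem F_bound {f : ℤ} (hf : InF f) : 1 ≤ f ∧ f ≤ 300 := by
  unfold InF at hf
  rw [List.mem_map] at hf
  obtain ⟨g, hg, rfl⟩ := hf
  obtain ⟨-, -, h1, h2, -⟩ := F_facts hg
  exact ⟨h1, h2⟩

/-- elements of `SS` above `600` are not sums of two elements of `SS` -/
theorem not_sum {n s t : ℤ} (hn : 600 < n) (h : InT n) (hs : SS s) (ht : SS t) : s + t ≠ n := by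
  rintro rfl
  obtain ⟨-, hs⟩ := hs
  obtain ⟨-, ht⟩ := ht
  rcases hs with hs | hs <;> rcases ht with ht | ht
  · exact not_sum_T hs ht h
  · have := not_shift_T ht hs
    rw [add_comm] at this
    exact this h
  · exact not_shift_T hs ht h
  · have a := F_bound hs
    have b := F_bound ht
    omega

theorem sqrt5_lo' : (2.2360679 : ℝ) < Real.sqrt 5 := by
  apply Real.lt_sqrt_of_sq_lt
  norm_num

theorem sqrt5_hi' : Real.sqrt 5 < (2.236068 : ℝ) := by
  rw [Real.sqrt_lt' (by norm_num)]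
  norm_num

theorem EC_add (X Y : ℤ) : E X Y + C X Y = 2 * X + Y := by
  unfold E C
  ring

theorem E_add (X1 Y1 X2 Y2 : ℤ) : E (X1 + X2) (Y1 + Y2) = E X1 Y1 + E X2 Y2 := by
  unfold E
  push_cast
  ring

theorem zeta (a b n p : ℤ) (h1 : (5 * b - a) % 10 = 0) :
    ∃ X Y : ℤ, 5 * n = 2 * X + Y + b ∧ Real.sqrt 5 * (pos n p - val (a, b)) = E X Y := by
  obtain ⟨u, hu⟩ : ∃ u : ℤ, 5 * b - a = 10 * u := ⟨(5 * b - a) / 10, by omega⟩
  refine ⟨2 * n + p - u, 5 * n - b - 2 * (2 * n + p - u), by ring, ?_⟩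
  have hu' : 5 * (b : ℝ) - a = 10 * u := by exact_mod_cast hu
  have ha : (a : ℝ) = 5 * b - 10 * u := by linarith
  unfold E pos val
  push_cast
  rw [ha]
  linear_combination ((n : ℝ) / 2 - b / 10) * sqrt5_sq

theorem extract (a b X Y : ℤ) (h1 : (5 * b - a) % 10 = 0) (h2 : (2 * X + Y + b) % 5 = 0) :
    ∃ s p : ℤ, 5 * s = 2 * X + Y + b ∧ Real.sqrt 5 * (pos s p - val (a, b)) = E X Y := by
  obtain ⟨u, hu⟩ : ∃ u : ℤ, 5 * b - a = 10 * u := ⟨(5 * b - a) / 10, by omega⟩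
  obtain ⟨s, hs⟩ : ∃ s : ℤ, 2 * X + Y + b = 5 * s := ⟨(2 * X + Y + b) / 5, by omega⟩
  refine ⟨s, X + u - 2 * s, by omega, ?_⟩
  have hu' : 5 * (b : ℝ) - a = 10 * u := by exact_mod_cast hu
  have ha : (a : ℝ) = 5 * b - 10 * u := by linarith
  have hs' : 2 * (X : ℝ) + Y + b = 5 * s := by exact_mod_cast hs
  have hY : (Y : ℝ) = 5 * s - 2 * X - b := by linarith
  unfold E pos val
  push_cast
  rw [ha, hY]
  linear_combination ((s : ℝ) / 2 - b / 10) * sqrt5_sq

theorem big_conj {X Y : ℤ} (hE : |E X Y| ≤ 0.03) (hE0 : E X Y ≠ 0) (hC : 0 < C X Y) :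
    33 ≤ C X Y := by
  have h := norm_ge hE0 hC.ne'
  rw [abs_mul, abs_of_pos hC] at h
  by_contra hlt
  push Not at hlt
  have h0 : 0 ≤ |E X Y| := abs_nonneg _
  nlinarith

theorem winP {R L r : ℤ × ℤ} (hR : (5 * R.2 - R.1) % 10 = 0) (hL : (5 * L.2 - L.1) % 10 = 0)
    (hI : (L, r) ∈ Tl) (hb : R.2 = 2 * L.2) (hLb : -20 ≤ L.2) (hRb : R.2 ≤ 20)
    (hc : ((2 * R.2) % 5 = 2 ∧ (2 * L.2) % 5 = 1) ∨ ((2 * R.2) % 5 = 3 ∧ (2 * L.2) % 5 = 4))
    (hw : Real.sqrt 5 * (val r - val L) ≤ 0.03) {n p : ℤ} (hn : 600 < n)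
    (h1 : val R ≤ pos n p) (h2 : pos n p ≤ val R + (val r - val L)) :
    ∃ s t : ℤ, 0 < s ∧ 0 < t ∧ s + t = n ∧ InT s ∧ InT t := by
  have s5 : 0 < Real.sqrt 5 := by have := sqrt5_lo; linarith
  have hne : val R ≠ pos n p := val_ne_pos (by omega) n p
  have h1' : val R < pos n p := lt_of_le_of_ne h1 hne
  obtain ⟨X, Y, hXY, hE⟩ := zeta R.1 R.2 n p hR
  have hEpos : 0 < E X Y := by
    rw [← hE]
    exact mul_pos s5 (by simpa using h1')
  have hEle : E X Y ≤ Real.sqrt 5 * (val r - val L) := by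
    rw [← hE]
    apply mul_le_mul_of_nonneg_left _ s5.le
    have : val (R.1, R.2) = val R := rfl
    rw [this]
    linarith
  have hsum := EC_add X Y
  have hXY' : 5 * (n : ℝ) = 2 * X + Y + R.2 := by exact_mod_cast hXY
  have hn' : (600 : ℝ) < n := by exact_mod_cast hn
  have hRb' : (R.2 : ℝ) ≤ 20 := by exact_mod_cast hRb
  have hCpos : 0 < C X Y := by linarith
  have hdec := dec_pos hEpos hCpos
  have hD : ∃ c, (2 * L.2) % 5 = c ∧ DD c X Y := by
    rcases hc with ⟨c1, c2⟩ | ⟨c1, c2⟩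
    · exact ⟨1, c2, hdec.1 (by omega)⟩
    · exact ⟨4, c2, hdec.2 (by omega)⟩
  obtain ⟨c, hc1, X1, Y1, X2, Y2, hX, hY, e1, c1, e2, c2, m1, m2⟩ := hD
  have hsplit : E X Y = E X1 Y1 + E X2 Y2 := by rw [← hX, ← hY, E_add]
  have main : ∀ U V : ℤ, 0 < E U V → E U V < E X Y → 0 < C U V → (U + 3 * V) % 5 = c →
      ∃ s : ℤ, 0 < s ∧ 5 * s = 2 * U + V + L.2 ∧ InT s := by
    intro U V hU1 hU2 hU3 hU4
    obtain ⟨s, q, hs, hsE⟩ := extract L.1 L.2 U V hL (by omega)
    have hbig := big_conj (X := U) (Y := V) (by rw [abs_of_pos hU1]; linarith) hU1.ne' hU3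
    have hs' : 5 * (s : ℝ) = 2 * U + V + L.2 := by exact_mod_cast hs
    have hsum2 := EC_add U V
    have hLb' : (-20 : ℝ) ≤ L.2 := by exact_mod_cast hLb
    have hspos : (0 : ℝ) < s := by linarith
    refine ⟨s, by exact_mod_cast hspos, hs, q, (L, r), hI, ?_, ?_⟩
    · have : 0 < Real.sqrt 5 * (pos s q - val (L.1, L.2)) := by rw [hsE]; exact hU1
      have h3 := (mul_pos_iff_of_pos_left s5).mp this
      have : val (L.1, L.2) = val L := rfl
      rw [this] at h3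
      linarith
    · have h3 : Real.sqrt 5 * (pos s q - val (L.1, L.2)) < Real.sqrt 5 * (val r - val L) := by
        rw [hsE]; linarith
      have h4 := (mul_lt_mul_iff_right₀ s5).mp h3
      have : val (L.1, L.2) = val L := rfl
      rw [this] at h4
      linarith
  obtain ⟨s, hs0, hs1, hs2⟩ := main X1 Y1 e1 (by linarith) c1 m1
  obtain ⟨t, ht0, ht1, ht2⟩ := main X2 Y2 e2 (by linarith) c2 m2
  exact ⟨s, t, hs0, ht0, by omega, hs2, ht2⟩

theorem winM {e R R' l l' : ℤ × ℤ} (he : (5 * e.2 - e.1) % 10 = 0)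
    (hR : (5 * R.2 - R.1) % 10 = 0) (hR' : (5 * R'.2 - R'.1) % 10 = 0)
    (hI : (l, R) ∈ Tl) (hI' : (l', R') ∈ Tl) (hb : e.2 = R.2 + R'.2)
    (hRb : -20 ≤ R.2) (hRb' : -20 ≤ R'.2) (heb : e.2 ≤ 20)
    (hc : ((2 * e.2) % 5 = 1 ∧ (2 * R.2) % 5 = 3 ∧ (2 * R'.2) % 5 = 3) ∨
      ((2 * e.2) % 5 = 4 ∧ (2 * R.2) % 5 = 2 ∧ (2 * R'.2) % 5 = 2))
    {w : ℝ} (hw : Real.sqrt 5 * w ≤ 0.03) (hw1 : w ≤ val R - val l) (hw2 : w ≤ val R' - val l')
    {n p : ℤ} (hn : 600 < n)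
    (h1 : val e - w ≤ pos n p) (h2 : pos n p ≤ val e) :
    ∃ s t : ℤ, 0 < s ∧ 0 < t ∧ s + t = n ∧ InT s ∧ InT t := by
  have s5 : 0 < Real.sqrt 5 := by have := sqrt5_lo; linarith
  have hne : val e ≠ pos n p := val_ne_pos (by omega) n p
  have h2' : pos n p < val e := lt_of_le_of_ne h2 hne.symm
  obtain ⟨X, Y, hXY, hE⟩ := zeta e.1 e.2 n p he
  have hEneg : E X Y < 0 := by
    rw [← hE]
    exact mul_neg_of_pos_of_neg s5 (by simpa using h2')
  have hEge : -(Real.sqrt 5 * w) ≤ E X Y := by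
    rw [← hE]
    have : val (e.1, e.2) = val e := rfl
    rw [this]
    nlinarith
  have hsum := EC_add X Y
  have hXY' : 5 * (n : ℝ) = 2 * X + Y + e.2 := by exact_mod_cast hXY
  have hn' : (600 : ℝ) < n := by exact_mod_cast hn
  have heb' : (e.2 : ℝ) ≤ 20 := by exact_mod_cast heb
  have hCpos : 0 < C X Y := by linarith
  have hdec := dec_mixed hEneg hCpos
  have hD : ∃ c, (2 * R.2) % 5 = c ∧ (2 * R'.2) % 5 = c ∧ MM c X Y := by
    rcases hc with ⟨c1, c2, c3⟩ | ⟨c1, c2, c3⟩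
    · exact ⟨3, c2, c3, hdec.1 (by omega)⟩
    · exact ⟨2, c2, c3, hdec.2 (by omega)⟩
  obtain ⟨c, hc1, hc2, X1, Y1, X2, Y2, hX, hY, e1, c1, e2, c2, m1, m2⟩ := hD
  have hsplit : E X Y = E X1 Y1 + E X2 Y2 := by rw [← hX, ← hY, E_add]
  have main : ∀ (Q k : ℤ × ℤ) (U V : ℤ), (5 * Q.2 - Q.1) % 10 = 0 → (k, Q) ∈ Tl →
      -20 ≤ Q.2 → (2 * Q.2) % 5 = c → w ≤ val Q - val k →
      E U V < 0 → E X Y < E U V → 0 < C U V → (U + 3 * V) % 5 = c →
      ∃ s : ℤ, 0 < s ∧ 5 * s = 2 * U + V + Q.2 ∧ InT s := by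
    intro Q k U V hQ hk hQb hQc hQw hU1 hU2 hU3 hU4
    obtain ⟨s, q, hs, hsE⟩ := extract Q.1 Q.2 U V hQ (by omega)
    have hbig := big_conj (X := U) (Y := V) (by rw [abs_of_neg hU1]; linarith) hU1.ne hU3
    have hs' : 5 * (s : ℝ) = 2 * U + V + Q.2 := by exact_mod_cast hs
    have hsum2 := EC_add U V
    have hLb' : (-20 : ℝ) ≤ Q.2 := by exact_mod_cast hQb
    have hspos : (0 : ℝ) < s := by linarith
    have hv : val (Q.1, Q.2) = val Q := rfl
    refine ⟨s, by exact_mod_cast hspos, hs, q, (k, Q), hk, ?_, ?_⟩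
    · have h3 : Real.sqrt 5 * (-w) < Real.sqrt 5 * (pos s q - val (Q.1, Q.2)) := by
        rw [hsE]; linarith
      have h4 := (mul_lt_mul_iff_right₀ s5).mp h3
      rw [hv] at h4
      have h5 : val (k, Q).1 = val k := rfl
      rw [h5]
      linarith
    · have h3 : Real.sqrt 5 * (pos s q - val (Q.1, Q.2)) < Real.sqrt 5 * 0 := by
        rw [hsE]; linarith
      have h4 := (mul_lt_mul_iff_right₀ s5).mp h3
      rw [hv] at h4
      have h5 : val (k, Q).2 = val Q := rfl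
      rw [h5]
      linarith
  obtain ⟨s, hs0, hs1, hs2⟩ := main R l X1 Y1 hR hI hRb hc1 hw1 e1 (by linarith) c1 m1
  obtain ⟨t, ht0, ht1, ht2⟩ := main R' l' X2 Y2 hR' hI' hRb' hc2 hw2 e2 (by linarith) c2 m2
  exact ⟨s, t, hs0, ht0, by omega, hs2, ht2⟩

theorem win {I : (ℤ × ℤ) × (ℤ × ℤ)} (hI : I ∈ Wl) {n p : ℤ} (hn : 600 < n)
    (h1 : val I.1 ≤ pos n p) (h2 : pos n p ≤ val I.2) :
    ∃ s t : ℤ, 0 < s ∧ 0 < t ∧ s + t = n ∧ InT s ∧ InT t := by
  have lo := sqrt5_lo'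
  have hi := sqrt5_hi'
  have sq := sqrt5_sq
  have hw : I = ((10, -4), (-815, 365)) ∨ I = ((-1485, 665), (20, -8)) ∨
      I = ((40, -16), (-3285, 1471)) ∨ I = ((-2320, 1040), (10, -2)) := by
    simpa [Wl] using hI
  rcases hw with rfl | rfl | rfl | rfl
  · refine winP (R := (10, -4)) (L := (10, -2)) (r := (-815, 367)) (by norm_num) (by norm_num)
      (by decide) (by norm_num) (by norm_num) (by norm_num) (by norm_num) ?_ hn h1 ?_
    · unfold val; push_cast; nlinarith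
    · refine le_trans h2 (le_of_eq ?_)
      unfold val; push_cast; ring
  · refine winM (e := (20, -8)) (R := (10, -4)) (R' := (10, -4)) (l := (-1495, 669))
      (l' := (-1495, 669)) (by norm_num) (by norm_num) (by norm_num) (by decide) (by decide)
      (by norm_num) (by norm_num) (by norm_num) (by norm_num) (by norm_num)
      (w := val (10, -4) - val (-1495, 669)) ?_ le_rfl le_rfl hn ?_ h2
    · unfold val; push_cast; nlinarith
    · refine le_trans (le_of_eq ?_) h1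
      unfold val; push_cast; ring
  · refine winP (R := (40, -16)) (L := (20, -8)) (r := (-3305, 1479)) (by norm_num) (by norm_num)
      (by decide) (by norm_num) (by norm_num) (by norm_num) (by norm_num) ?_ hn h1 ?_
    · unfold val; push_cast; nlinarith
    · refine le_trans h2 (le_of_eq ?_)
      unfold val; push_cast; ring
  · refine winM (e := (10, -2)) (R := (40, -16)) (R' := (-30, 14)) (l := (-195, 89))
      (l' := (-2360, 1056)) (by norm_num) (by norm_num) (by norm_num) (by decide) (by decide)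
      (by norm_num) (by norm_num) (by norm_num) (by norm_num) (by norm_num)
      (w := val (-30, 14) - val (-2360, 1056)) ?_ ?_ le_rfl hn ?_ h2
    · unfold val; push_cast; nlinarith
    · unfold val; push_cast; nlinarith
    · refine le_trans (le_of_eq ?_) h1
      unfold val; push_cast; ring

/-- every `n > 600` outside `T` is a sum of two elements of `SS` -/
theorem is_sum {n : ℤ} (hn : 600 < n) (h : ¬ InT n) : ∃ s t : ℤ, SS s ∧ SS t ∧ s + t = n := by
  set p : ℤ := ⌊(n : ℝ) * ((1 + Real.sqrt 5) / 2)⌋ with hp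
  have hx0 : 0 ≤ pos n p := by
    unfold pos
    have := Int.floor_le ((n : ℝ) * ((1 + Real.sqrt 5) / 2))
    linarith
  have hx1 : pos n p < 1 := by
    unfold pos
    have := Int.lt_floor_add_one ((n : ℝ) * ((1 + Real.sqrt 5) / 2))
    linarith
  have e0 : val (0, 0) = 0 := by unfold val; norm_num
  obtain ⟨it, hit, h1, h2⟩ := chain_sound Cl (0, 0) (pos n p) chain_true (by rw [e0]; exact hx0) hx1
  have hc := chkItems_true
  unfold chkItems at hc
  rw [List.all_eq_true] at hc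
  have hc1 := hc it hit
  split_ifs at hc1 with hf
  · simp only [Bool.and_eq_true, Bool.or_eq_true, decide_eq_true_eq] at hc1
    obtain ⟨hq, hT⟩ := hc1
    have e1 : ∀ e : ℤ × ℤ, val (sft e it.1.1 it.1.2) = val e := by
      intro e
      rw [val_sft, hf, hq]
      unfold pos
      norm_num
    rw [e1] at h1 h2
    rcases hT with hT | hT
    · exfalso
      apply h
      obtain ⟨-, -, f1, f2⟩ := T_facts hT
      exact ⟨p, it.2, hT, lt_of_le_of_ne h1 (val_ne_pos f1 n p),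
        lt_of_le_of_ne h2 (val_ne_pos f2 n p).symm⟩
    · obtain ⟨s, t, hs, ht, hst, hsT, htT⟩ := win hT hn h1 h2
      exact ⟨s, t, ⟨hs, Or.inl hsT⟩, ⟨ht, Or.inl htT⟩, hst⟩
  · simp only [Bool.and_eq_true, decide_eq_true_eq] at hc1
    obtain ⟨hF, hT⟩ := hc1
    have hb := F_bound hF
    obtain ⟨-, -, f1, f2⟩ := T_facts hT
    rw [val_sft] at h1 h2
    have hpos : pos (n - it.1.1) (p - it.1.2) = pos n p - pos it.1.1 it.1.2 := by
      unfold pos
      push_cast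
      ring
    refine ⟨it.1.1, n - it.1.1, ⟨by omega, Or.inr hF⟩, ⟨by omega, Or.inl ?_⟩, by ring⟩
    refine ⟨p - it.1.2, it.2, hT, lt_of_le_of_ne ?_ (val_ne_pos f1 _ _),
      lt_of_le_of_ne ?_ (val_ne_pos f2 _ _).symm⟩
    · rw [hpos]; linarith
    · rw [hpos]; linarith

end Pool.Agent.MP1bab7f
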