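import Pool.Agent.Lib.MP_1bab7f_nt.Greedy

/-!
No infinite arithmetic progression of integers has all its positions in `T`.
-/

set_option autoImplicit false

namespace Pool.Agent.MP1bab7f

theorem InT_bound {n : ℤ} (h : InT n) : ∃ p : ℤ, 0 < pos n p ∧ pos n p < 0.6 := by
  obtain ⟨p, I, hI, h1, h2⟩ := h
  obtain ⟨f1, f2, -, -⟩ := T_facts hI
  exact ⟨p, by linarith, by linarith⟩

theorem phi_ne {q c : ℤ} (hq : q ≠ 0) : (q : ℝ) * ((1 + Real.sqrt 5) / 2) - c ≠ 0 := by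
  intro h
  have h1 : ((q : ℤ) : ℝ) * Real.sqrt 5 = ((2 * c - q : ℤ) : ℝ) := by
    push_cast
    linarith
  have := irr5.intCast_mul hq
  rw [h1] at this
  exact (this.ne_int _) rfl

theorem small_step {q : ℤ} (hq : 0 < q) : ∃ (k : ℕ) (c : ℤ), 0 < k ∧
    ((k : ℤ) * q : ℤ) * ((1 + Real.sqrt 5) / 2) - (c : ℝ) ≠ 0 ∧
    |((k : ℤ) * q : ℤ) * ((1 + Real.sqrt 5) / 2) - (c : ℝ)| < 0.4 := by
  set θ : ℝ := (q : ℝ) * ((1 + Real.sqrt 5) / 2) with hθ
  have f0 := Int.floor_le θ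
  have f1 := Int.lt_floor_add_one θ
  rcases lt_or_ge (θ - ⌊θ⌋) 0.4 with h | h
  · refine ⟨1, ⌊θ⌋, one_pos, ?_, ?_⟩
    · apply phi_ne; push_cast; omega
    · push_cast
      rw [one_mul, ← hθ, abs_lt]
      constructor <;> linarith
  · rcases lt_or_ge 0.6 (θ - ⌊θ⌋) with h' | h'
    · refine ⟨1, ⌊θ⌋ + 1, one_pos, ?_, ?_⟩
      · apply phi_ne; push_cast; omega
      · push_cast
        rw [one_mul, ← hθ, abs_lt]
        constructor <;> linarith
    · refine ⟨2, 2 * ⌊θ⌋ + 1, two_pos, ?_, ?_⟩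
      · apply phi_ne; push_cast; omega
      · push_cast
        have : (2 : ℝ) * q * ((1 + Real.sqrt 5) / 2) = 2 * θ := by rw [hθ]; ring
        rw [this, abs_lt]
        constructor <;> linarith

theorem no_ap {n0 q : ℤ} (hq : 0 < q) (h : ∀ j : ℕ, InT (n0 + j * q)) : False := by
  obtain ⟨k, c, hk, hne, hlt⟩ := small_step hq
  set δ : ℝ := ((k : ℤ) * q : ℤ) * ((1 + Real.sqrt 5) / 2) - (c : ℝ) with hδ
  have h0 : InT n0 := by simpa using h 0
  obtain ⟨p0, hp0, hp0'⟩ := InT_bound h0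
  have step : ∀ j : ℕ, 0 < pos n0 p0 + j * δ ∧ pos n0 p0 + j * δ < 0.6 := by
    intro j
    induction j with
    | zero => simpa using ⟨hp0, hp0'⟩
    | succ j ih =>
      obtain ⟨i1, i2⟩ := ih
      obtain ⟨r, r1, r2⟩ := InT_bound (h ((j + 1) * k))
      have e : pos n0 p0 + ((j + 1 : ℕ) : ℝ) * δ - pos (n0 + (((j + 1) * k : ℕ) : ℤ) * q) r
          = ((r - p0 - (j + 1) * c : ℤ) : ℝ) := by
        rw [hδ]
        unfold pos
        push_cast
        ring
      rw [abs_lt] at hlt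
      have e2 : pos n0 p0 + ((j + 1 : ℕ) : ℝ) * δ = (pos n0 p0 + j * δ) + δ := by
        push_cast
        ring
      have l1 : (-1 : ℝ) < ((r - p0 - (j + 1) * c : ℤ) : ℝ) := by
        rw [← e, e2]
        linarith
      have l2 : ((r - p0 - (j + 1) * c : ℤ) : ℝ) < 1 := by
        rw [← e, e2]
        linarith
      have l1' : (-1 : ℤ) < r - p0 - (j + 1) * c := by exact_mod_cast l1
      have l2' : r - p0 - (j + 1) * c < (1 : ℤ) := by exact_mod_cast l2
      have z : r - p0 - (j + 1) * c = (0 : ℤ) := by omega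
      rw [z] at e
      push_cast at e
      push_cast
      push_cast at r1 r2
      constructor <;> linarith
  obtain ⟨j, hj⟩ := exists_nat_gt (1 / |δ|)
  have hδpos : 0 < |δ| := abs_pos.mpr hne
  have h1 : 1 < j * |δ| := by
    rw [div_lt_iff₀ hδpos] at hj
    exact hj
  have h2 := step j
  have h3 : |(j : ℝ) * δ| < 0.6 := by
    rw [abs_lt]
    constructor <;> linarith
  rw [abs_mul, Nat.abs_cast] at h3
  linarith

end Pool.Agent.MP1bab7f
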